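import Mathlib

/-! Computations with the derivations `∂/∂x_{ij}` on the field of rational functions of a generic
`n × 2` matrix. -/

set_option autoImplicit false

namespace Q43.GR

open Matrix

universe u

/-- Derivations extend to the field of fractions. -/
theorem exists_der_frac {k B : Type u} [Field k] [CommRing B] [IsDomain B] [Algebra k B]
    (E : Derivation k B B) : ∃ E' : Derivation k (FractionRing B) (FractionRing B),
      ∀ b, E' (algebraMap B (FractionRing B) b) = algebraMap B (FractionRing B) (E b) := by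
  let L := FractionRing B
  have hfe : Algebra.FormallyEtale B L :=
    Algebra.FormallyEtale.of_isLocalization (nonZeroDivisors B)
  let l0 : Ω[B⁄k] →ₗ[B] L := (Algebra.linearMap B L) ∘ₗ E.liftKaehlerDifferential
  let l : TensorProduct B L Ω[B⁄k] →ₗ[L] L := LinearMap.liftBaseChange L l0
  let e := KaehlerDifferential.tensorKaehlerEquivOfFormallyEtale k B L
  refine ⟨(l ∘ₗ e.symm.toLinearMap).compDer (KaehlerDifferential.D k L), fun c => ?_⟩
  change l (e.symm (KaehlerDifferential.D k L (algebraMap B L c))) = _
  rw [KaehlerDifferential.tensorKaehlerEquivOfFormallyEtale_symm_D_algebraMap,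
    LinearMap.liftBaseChange_tmul, one_smul]
  change algebraMap B L (E.liftKaehlerDifferential (KaehlerDifferential.D k B c)) = _
  rw [Derivation.liftKaehlerDifferential_comp_D]

section general

variable {k K : Type u} [Field k] [Field K] [Algebra k K] {n : ℕ}

/-- Data: a matrix `x` over `K` and derivations `∂_{ij}` with `∂_{ij} x_{ab} = δ_{ai} δ_{bj}`. -/
structure Data (k K : Type u) [Field k] [Field K] [Algebra k K] (n : ℕ) where
  x : Matrix (Fin n) (Fin 2) K
  d : Fin n → Fin 2 → Derivation k K K
  hd : ∀ i j a b, d i j (x a b) = if a = i ∧ b = j then 1 else 0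

variable (W : Data k K n) (I : Fin 2 → Fin n)

/-- the submatrix -/
def Data.xI : Matrix (Fin 2) (Fin 2) K := W.x.submatrix I id

/-- the matrix `y = x * x_I⁻¹` -/
noncomputable def Data.y : Matrix (Fin n) (Fin 2) K := W.x * (W.xI I)⁻¹

/-- chart derivations -/
noncomputable def Data.cd (i : Fin n) (c : Fin 2) : Derivation k K K :=
  ∑ j, W.xI I c j • W.d i j

lemma Data.cd_apply (i : Fin n) (c : Fin 2) (f : K) :
    W.cd I i c f = ∑ j, W.x (I c) j * W.d i j f := by
  simp [Data.cd, Data.xI]

lemma Data.cd_x (i : Fin n) (c : Fin 2) (a : Fin n) (j : Fin 2) :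
    W.cd I i c (W.x a j) = if a = i then W.x (I c) j else 0 := by
  rw [W.cd_apply]
  by_cases h : a = i
  · subst h
    rw [Finset.sum_eq_single j]
    · rw [W.hd]; simp
    · intro b _ hb
      rw [W.hd, if_neg (fun h => hb h.2.symm), mul_zero]
    · simp
  · rw [if_neg h]
    exact Finset.sum_eq_zero fun b _ => by rw [W.hd, if_neg (fun h' => h h'.1), mul_zero]

variable (hI : (W.xI I).det ≠ 0)

include hI in
lemma Data.y_mul : W.y I * W.xI I = W.x := by
  rw [Data.y, Matrix.mul_assoc, Matrix.nonsing_inv_mul _ (Ne.isUnit hI), Matrix.mul_one]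

include hI in
lemma Data.y_I (b c : Fin 2) : W.y I (I b) c = if b = c then 1 else 0 := by
  have h1 : (W.y I).submatrix I id = 1 := by
    have : (W.y I).submatrix I id = W.xI I * (W.xI I)⁻¹ := by
      rw [Data.y, Data.xI]; rfl
    rw [this, Matrix.mul_nonsing_inv _ (Ne.isUnit hI)]
  have h2 := congrFun (congrFun h1 b) c
  rw [Matrix.one_apply] at h2
  exact h2

include hI in
/-- The derivative of `y`. -/
lemma Data.cd_y (i : Fin n) (c : Fin 2) (a : Fin n) (b : Fin 2) :
    W.cd I i c (W.y I a b) = if b = c then (if a = i then 1 else 0) -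
      ∑ b', W.y I a b' * (if I b' = i then 1 else 0) else 0 := by
  -- differentiate `y * x_I = x`
  let Dy : Matrix (Fin n) (Fin 2) K := fun a b => W.cd I i c (W.y I a b)
  let T : Matrix (Fin n) (Fin 2) K := fun a b => if b = c then (if a = i then 1 else 0) -
      ∑ b', W.y I a b' * (if I b' = i then 1 else 0) else 0
  have key : Dy * W.xI I = T * W.xI I := by
    ext a j
    have h1 : ∑ b, W.y I a b * W.x (I b) j = W.x a j := by
      have := congrFun (congrFun (W.y_mul I hI) a) j
      rw [Matrix.mul_apply] at this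
      exact this
    have h2 := congrArg (W.cd I i c) h1
    rw [map_sum, W.cd_x] at h2
    have h3 : ∀ b, W.cd I i c (W.y I a b * W.x (I b) j) =
        W.y I a b * (if I b = i then W.x (I c) j else 0) + W.x (I b) j * Dy a b := by
      intro b
      rw [Derivation.leibniz, W.cd_x]
      rfl
    rw [Finset.sum_congr rfl fun b _ => h3 b, Finset.sum_add_distrib] at h2
    rw [Matrix.mul_apply, Matrix.mul_apply]
    have h4 : ∑ b, T a b * W.xI I b j = ((if a = i then 1 else 0) -
      ∑ b', W.y I a b' * (if I b' = i then 1 else 0)) * W.x (I c) j := by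
      rw [Finset.sum_eq_single c]
      · simp [T, Data.xI]
      · intro b _ hb
        simp [T, hb]
      · simp
    rw [h4]
    have h5 : ∑ b, Dy a b * W.xI I b j = ∑ b, W.x (I b) j * Dy a b :=
      Finset.sum_congr rfl fun b _ => by rw [mul_comm]; rfl
    rw [h5]
    have h6 : ∑ b, W.y I a b * (if I b = i then W.x (I c) j else 0) =
        (∑ b', W.y I a b' * (if I b' = i then 1 else 0)) * W.x (I c) j := by
      rw [Finset.sum_mul]
      refine Finset.sum_congr rfl fun b _ => ?_
      split_ifs <;> simp
    rw [h6] at h2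
    have h7 : (if a = i then W.x (I c) j else 0) = (if a = i then 1 else 0) * W.x (I c) j := by
      split_ifs <;> simp
    rw [h7] at h2
    linear_combination h2
  have h8 : Dy = T := by
    have := congrArg (fun M => M * (W.xI I)⁻¹) key
    simpa [Matrix.mul_assoc, Matrix.mul_nonsing_inv _ (Ne.isUnit hI)] using this
  exact congrFun (congrFun h8 a) b

/-- The derivative of the minor. -/
lemma Data.cd_det (hinj : Function.Injective I) (i : Fin n) (c : Fin 2) :
    W.cd I i c (W.xI I).det = if I c = i then (W.xI I).det else 0 := by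
  have h01 : I 0 ≠ I 1 := fun h => by simpa using hinj h
  rw [Matrix.det_fin_two]
  simp only [Data.xI, Matrix.submatrix_apply, id]
  rw [map_sub, Derivation.leibniz, Derivation.leibniz, W.cd_x, W.cd_x, W.cd_x, W.cd_x]
  fin_cases c
  · by_cases h0 : I 0 = i
    · have h1 : I 1 ≠ i := fun h => h01 (h0.trans h.symm)
      simp [h0, h1] <;> ring
    · by_cases h1 : I 1 = i
      · simp [h0, h1] <;> ring
      · simp [h0, h1]
  · by_cases h0 : I 0 = i
    · have h1 : I 1 ≠ i := fun h => h01 (h0.trans h.symm)
      simp [h0, h1] <;> ring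
    · by_cases h1 : I 1 = i
      · simp [h0, h1] <;> ring
      · simp [h0, h1]

/-- the coordinate ring of the chart -/
noncomputable def Data.A : Subalgebra k K :=
  Algebra.adjoin k (Set.range fun ab : Fin n × Fin 2 => W.y I ab.1 ab.2)

lemma Data.y_mem (a : Fin n) (b : Fin 2) : W.y I a b ∈ W.A I :=
  Algebra.subset_adjoin ⟨(a, b), rfl⟩

include hI in
lemma Data.cd_mem (i : Fin n) (c : Fin 2) {f : K} (hf : f ∈ W.A I) : W.cd I i c f ∈ W.A I := by
  induction hf using Algebra.adjoin_induction with
  | mem f hf =>
    obtain ⟨⟨a, b⟩, rfl⟩ := hf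
    simp only
    rw [W.cd_y I hI]
    split_ifs
    · refine Subalgebra.sub_mem _ (Subalgebra.one_mem _) (Subalgebra.sum_mem _ fun b' _ => ?_)
      split_ifs
      · exact Subalgebra.mul_mem _ (W.y_mem I a b') (Subalgebra.one_mem _)
      · rw [mul_zero]; exact Subalgebra.zero_mem _
    · refine Subalgebra.sub_mem _ (Subalgebra.zero_mem _) (Subalgebra.sum_mem _ fun b' _ => ?_)
      split_ifs
      · exact Subalgebra.mul_mem _ (W.y_mem I a b') (Subalgebra.one_mem _)
      · rw [mul_zero]; exact Subalgebra.zero_mem _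
    · exact Subalgebra.zero_mem _
  | algebraMap r => rw [Derivation.map_algebraMap]; exact Subalgebra.zero_mem _
  | add f g _ _ hf hg => rw [map_add]; exact Subalgebra.add_mem _ hf hg
  | mul f g hf' hg' hf hg =>
    rw [Derivation.leibniz]
    exact Subalgebra.add_mem _ (Subalgebra.mul_mem _ hf' hg) (Subalgebra.mul_mem _ hg' hf)

include hI in
/-- `Σ_i y_{ib} D_{ic}` kills the coordinate ring of the chart. -/
lemma Data.E_A (b c : Fin 2) {f : K} (hf : f ∈ W.A I) :
    ∑ i, W.y I i b * W.cd I i c f = 0 := by
  induction hf using Algebra.adjoin_induction with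
  | mem f hf =>
    obtain ⟨⟨a, d⟩, rfl⟩ := hf
    simp only
    have h1 : ∀ i, W.y I i b * W.cd I i c (W.y I a d) = if d = c then
        (W.y I i b * (if a = i then 1 else 0) -
          ∑ b', W.y I a b' * (W.y I i b * (if I b' = i then 1 else 0))) else 0 := by
      intro i
      rw [W.cd_y I hI]
      by_cases h : d = c
      · rw [if_pos h, if_pos h, mul_sub, Finset.mul_sum]
        congr 1
        exact Finset.sum_congr rfl fun b' _ => by ring
      · rw [if_neg h, if_neg h, mul_zero]
    rw [Finset.sum_congr rfl fun i _ => h1 i]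
    by_cases h : d = c
    · simp only [if_pos h]
      rw [Finset.sum_sub_distrib, Finset.sum_comm]
      have h2 : ∑ i, W.y I i b * (if a = i then (1 : K) else 0) = W.y I a b := by
        simp
      have h3 : ∑ b', ∑ i, W.y I a b' * (W.y I i b * (if I b' = i then (1 : K) else 0)) =
          W.y I a b := by
        have h4 : ∀ b', ∑ i, W.y I a b' * (W.y I i b * (if I b' = i then (1 : K) else 0)) =
            W.y I a b' * (if b' = b then 1 else 0) := by
          intro b'
          rw [← Finset.mul_sum]
          congr 1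
          rw [← W.y_I I hI b' b]
          simp
        rw [Finset.sum_congr rfl fun b' _ => h4 b']
        simp
      rw [h2, h3, sub_self]
    · simp [h]
  | algebraMap r => simp
  | add f g _ _ hf hg =>
    simp only [map_add, mul_add]
    rw [Finset.sum_add_distrib, hf, hg, add_zero]
  | mul f g _ _ hf hg =>
    have : ∀ i, W.y I i b * W.cd I i c (f * g) =
        f * (W.y I i b * W.cd I i c g) + g * (W.y I i b * W.cd I i c f) := by
      intro i
      rw [Derivation.leibniz]
      simp only [smul_eq_mul]
      ring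
    rw [Finset.sum_congr rfl fun i _ => this i, Finset.sum_add_distrib, ← Finset.mul_sum,
      ← Finset.mul_sum, hf, hg, mul_zero, mul_zero, add_zero]

/-- divergence -/
noncomputable def Data.div (v : Fin n → K) (j : Fin 2) : K := ∑ i, W.d i j (v i)

/-- the operator `v ↦ x div(v)` -/
noncomputable def Data.op (v : Fin n → K) : Fin n → K := fun a => ∑ j, W.x a j * W.div v j

include hI in
lemma Data.op_eq (v : Fin n → K) (a : Fin n) :
    W.op v a = ∑ c, W.y I a c * ∑ i, W.cd I i c (v i) := by
  have h1 : ∀ j, W.x a j = ∑ c, W.y I a c * W.x (I c) j := by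
    intro j
    have := congrFun (congrFun (W.y_mul I hI) a) j
    rw [Matrix.mul_apply] at this
    exact this.symm
  rw [Data.op]
  simp only [Data.div]
  calc ∑ j, W.x a j * ∑ i, W.d i j (v i)
      = ∑ j, ∑ c, W.y I a c * (W.x (I c) j * ∑ i, W.d i j (v i)) := by
        refine Finset.sum_congr rfl fun j _ => ?_
        rw [h1 j, Finset.sum_mul]
        exact Finset.sum_congr rfl fun c _ => by ring
    _ = ∑ c, W.y I a c * ∑ j, W.x (I c) j * ∑ i, W.d i j (v i) := by
        rw [Finset.sum_comm]
        exact Finset.sum_congr rfl fun c _ => by rw [Finset.mul_sum]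
    _ = ∑ c, W.y I a c * ∑ i, W.cd I i c (v i) := by
        refine Finset.sum_congr rfl fun c _ => ?_
        congr 1
        simp only [W.cd_apply, Finset.mul_sum]
        rw [Finset.sum_comm]

/-- derivative of the inverse square of the minor -/
lemma Data.cd_detinv (hI : (W.xI I).det ≠ 0) (hinj : Function.Injective I) (i : Fin n)
    (c : Fin 2) : W.cd I i c (((W.xI I).det ^ 2)⁻¹) =
      if I c = i then -2 * ((W.xI I).det ^ 2)⁻¹ else 0 := by
  rw [Derivation.leibniz_inv, Derivation.leibniz_pow, W.cd_det I hinj]
  split_ifs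
  · simp only [smul_eq_mul, nsmul_eq_mul]
    field_simp
    push_cast
    ring
  · simp

include hI in
/-- `op` preserves the lattices of the chart: `V ⊗ L` is mapped to `R ⊗ L`. -/
lemma Data.op_mem (hinj : Function.Injective I) (h : Fin n → K) (hh : ∀ i, h i ∈ W.A I) :
    ∃ a' : Fin 2 → K, (∀ c, a' c ∈ W.A I) ∧ ∀ a,
      W.op (fun i => ((W.xI I).det ^ 2)⁻¹ * h i) a =
        ((W.xI I).det ^ 2)⁻¹ * ∑ c, W.y I a c * a' c := by
  refine ⟨fun c => ∑ i, ((if I c = i then -2 else 0) * h i + W.cd I i c (h i)), ?_, ?_⟩
  · intro c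
    refine Subalgebra.sum_mem _ fun i _ => Subalgebra.add_mem _ ?_ (W.cd_mem I hI i c (hh i))
    split_ifs
    · refine Subalgebra.mul_mem _ ?_ (hh i)
      have : (-2 : K) = algebraMap k K (-2) := by rw [map_neg, map_ofNat]
      rw [this]
      exact Subalgebra.algebraMap_mem _ _
    · rw [zero_mul]; exact Subalgebra.zero_mem _
  · intro a
    rw [W.op_eq I hI, Finset.mul_sum]
    refine Finset.sum_congr rfl fun c _ => ?_
    rw [mul_left_comm]
    congr 1
    rw [Finset.mul_sum]
    refine Finset.sum_congr rfl fun i _ => ?_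
    rw [Derivation.leibniz, W.cd_detinv I hI hinj]
    simp only [smul_eq_mul]
    split_ifs <;> ring

include hI in
/-- `op` is multiplication by `n - 4` on `R ⊗ L`. -/
lemma Data.op_R (hinj : Function.Injective I) (a' : Fin 2 → K) (ha' : ∀ c, a' c ∈ W.A I)
    (a : Fin n) :
    W.op (fun i => ((W.xI I).det ^ 2)⁻¹ * ∑ b, W.y I i b * a' b) a =
      ((n : K) - 4) * (((W.xI I).det ^ 2)⁻¹ * ∑ b, W.y I a b * a' b) := by
  rw [W.op_eq I hI]
  have key : ∀ c, ∑ i, W.cd I i c (((W.xI I).det ^ 2)⁻¹ * ∑ b, W.y I i b * a' b) =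
      ((n : K) - 4) * (((W.xI I).det ^ 2)⁻¹ * a' c) := by
    intro c
    have h1 : ∀ i, W.cd I i c (((W.xI I).det ^ 2)⁻¹ * ∑ b, W.y I i b * a' b) =
        ((W.xI I).det ^ 2)⁻¹ * ((∑ b, W.y I i b * W.cd I i c (a' b)) +
          a' c * (1 - ∑ b', W.y I i b' * (if I b' = i then 1 else 0)) +
          (if I c = i then -2 else 0) * ∑ b, W.y I i b * a' b) := by
      intro i
      have h2 : W.cd I i c (∑ b, W.y I i b * a' b) = (∑ b, W.y I i b * W.cd I i c (a' b)) +
          a' c * (1 - ∑ b', W.y I i b' * (if I b' = i then 1 else 0)) := by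
        rw [map_sum]
        have h3 : ∀ b, W.cd I i c (W.y I i b * a' b) = W.y I i b * W.cd I i c (a' b) +
            (if b = c then a' b * (1 - ∑ b', W.y I i b' * (if I b' = i then 1 else 0)) else 0) := by
          intro b
          rw [Derivation.leibniz, W.cd_y I hI]
          simp only [smul_eq_mul, if_true]
          split_ifs <;> ring
        rw [Finset.sum_congr rfl fun b _ => h3 b, Finset.sum_add_distrib]
        congr 1
        rw [Finset.sum_ite_eq' Finset.univ c]
        simp
      rw [Derivation.leibniz, W.cd_detinv I hI hinj, h2]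
      simp only [smul_eq_mul]
      split_ifs <;> ring
    rw [Finset.sum_congr rfl fun i _ => h1 i, ← Finset.mul_sum, Finset.sum_add_distrib,
      Finset.sum_add_distrib]
    have e1 : ∑ i, ∑ b, W.y I i b * W.cd I i c (a' b) = 0 := by
      rw [Finset.sum_comm]
      exact Finset.sum_eq_zero fun b _ => W.E_A I hI b c (ha' b)
    have e2 : ∑ i, a' c * (1 - ∑ b', W.y I i b' * (if I b' = i then 1 else 0)) =
        a' c * ((n : K) - 2) := by
      rw [← Finset.mul_sum, Finset.sum_sub_distrib, Finset.sum_comm]
      congr 2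
      · simp
      · have : ∀ b', ∑ i, W.y I i b' * (if I b' = i then (1 : K) else 0) = 1 := by
          intro b'
          have h5 := W.y_I I hI b' b'
          rw [if_pos rfl] at h5
          simp [h5]
        rw [Finset.sum_congr rfl fun b' _ => this b']
        simp
    have e3 : ∑ i, (if I c = i then (-2 : K) else 0) * ∑ b, W.y I i b * a' b = -2 * a' c := by
      have : ∑ i, (if I c = i then (-2 : K) else 0) * ∑ b, W.y I i b * a' b =
          -2 * ∑ b, W.y I (I c) b * a' b := by
        simp
      rw [this]
      congr 1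
      have h6 : ∀ b, W.y I (I c) b * a' b = if c = b then a' b else 0 := by
        intro b
        rw [W.y_I I hI]
        split_ifs <;> simp
      rw [Finset.sum_congr rfl fun b _ => h6 b]
      simp
    rw [e1, e2, e3]
    ring
  rw [Finset.sum_congr rfl fun c _ => by rw [key c]]
  rw [Finset.mul_sum, Finset.mul_sum]
  exact Finset.sum_congr rfl fun c _ => by ring

end general

end Q43.GR
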